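import Pool.Agent.U74.LN.Eq

/-!
# Whitehead groups of torsion-free groups: graphs of groups with arbitrary edge groups

`C` is a class of groups with the closure properties `ClosedE C`, which contains the metabelian groups and
satisfies `AcylF C` (finitely generated groups with an acylindrical action on a tree with stabilizers in
`C` are in `C`). All this is known for the class of the groups whose wreath products with finite groups
satisfy the K-theoretic and L-theoretic Farrell-Jones conjecture with coefficients (Bartels, Lück, Reich,
Wegner, Knopf); this class also contains `GL_m(F)` for all `m` and all number fields `F` (Rüping). The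
Whitehead group of every torsion-free group of this class is trivial.

The theorem of Waldhausen on amalgams and HNN extensions needs that the group rings of the edge groups are
regular coherent. Here nothing is assumed about the rings of the edge groups; the assumptions are about their
commensurators.

* (1) Let `G` act on a tree with vertex stabilizers in `C`, such that two edge stabilizers at a vertex are
  commensurable or have a finite intersection (of order at most `N(e)` for the edges different from `e`). If
  the commensurators of the infinite edge stabilizers are in `C`, then `G` is in `C`.
* (2) Let two edge stabilizers at a vertex `v` be equal, or have an intersection of order at most `N(e)`. If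
  the vertex stabilizers are in `C`, and for all infinite edge stabilizers `E` at `v` the group
  `N_{G_v}(E)/E` is in `C`, and all extensions of `E` by cyclic groups are in `C`
  (`CycX C`), then `G` is in `C`. The groups `E` can have infinite index in their normalizers in
  the two vertex groups, so that the action is far from acylindrical.
* (3) `CycX C` holds for the virtually solvable groups and for all groups in `C` whose outer automorphism
  groups are torsion groups (as for irreducible lattices in semisimple groups of higher rank).
* (4) An example of (2). Let the vertex stabilizers `G_v` be arbitrary groups of matrices over fields `F`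
  with all `GL_m(F)` in `C` (`F` and the degree depend on `v`), and let the stabilizer of an edge at `v`
  consist of all transvections and dilations in `G_v` with a given direction `w`, that is of all
  `g` in `G_v` which act trivially on `F^n / F w`. Then `G` is in `C`.

For instance let `Γ` and `Γ'` be the principal congruence subgroups of level `5` of `GL_n(ℤ[1/6])` and of
`GL_m(ℤ[1/6])`, let `E` and `E'` be the subgroups of the elements which are trivial modulo a
given line, and let `α : E → E'` be an isomorphism (if `n = m` there are many). Then `G = Γ *_E Γ'` is a
torsion-free group, and its Whitehead group is trivial. The group `E` is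
`(5 ℤ[1/6])^(n-1) ⋊ U`, `U` the group of the units of `ℤ[1/6]` which are congruent to `1`; it contains the
finitely generated group `ℤ[1/6] ⋊ ℤ` (multiplication with `4/9`) which is not finitely presented,
hence is not of type `FP_2` (Bieri-Strebel), and the ring `ℤ[E]` is not coherent. The normalizer of `E` in
`Γ` is the stabilizer of the line; it contains a congruence subgroup of `GL_{n-1}(ℤ[1/6])`.

Outline of the proof. (1) Let `G` be finitely generated; it acts on a subtree with finitely many orbits of
edges, and on the tree of cylinders of the commensurability relation; its vertex stabilizers are
the vertex stabilizers of `G` and subgroups of the commensurators, and the new action is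
acylindrical. (2) The commensurator of `E` is its normalizer `M`; it acts on the tree of the points fixed by `E`,
and all edge stabilizers are equal to `E`. So `M/E` acts on a tree with trivial edge stabilizers and vertex
stabilizers in `C`, and it is in `C`. The preimages of the cyclic subgroups of `M/E` are extensions of `E`
by cyclic groups. (4) Elements which are trivial modulo two different lines are trivial, and the groups of
elements which are trivial modulo a line are metabelian.
-/

set_option autoImplicit false

namespace Pool.Agent.Results.MP_8f66f0_al.ArbitraryEdgeGroups

open Pool.Agent.Y110.FJ (ClosedE)
open Pool.Agent.N509.TX (AcylF)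
open Pool.Agent.N431.CE (Es)
open Pool.Agent.U74.LN (VS EqOrSmall CycX NormQ LineEdges)
open Subgroup

/-- `G` acts on the tree `T` by automorphisms -/
def TreeAction (G : Type) {V : Type} [Group G] [MulAction G V] (T : SimpleGraph V) : Prop :=
  T.IsTree ∧ ∀ (g : G) (u v : V), T.Adj u v → T.Adj (g • u) (g • v)

/-- two edge stabilizers at a vertex are commensurable or have a finite intersection, which is bounded if
one of the edges is fixed -/
def Isolated (G : Type) {V : Type} [Group G] [MulAction G V] (T : SimpleGraph V) : Prop :=
  ∀ v a, T.Adj v a → ∃ N : ℕ, ∀ b, T.Adj v b → b ≠ a →
    Subgroup.Commensurable (Es G v a) (Es G v b) ∨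
      (Finite ↥(Es G v a ⊓ Es G v b) ∧ Nat.card ↥(Es G v a ⊓ Es G v b) ≤ N)

/-- Let `C` be a class of groups with `ClosedE C` and `AcylF C` which contains the metabelian groups.
(1) Groups which act on trees with vertex stabilizers in `C` and isolated edge stabilizers, such that the
commensurators of the infinite edge stabilizers are in `C`, are in `C`. (2) Let two edge stabilizers at a
vertex be equal or have a small intersection; if the vertex stabilizers `G_v` are in `C`, and
`N_{G_v}(E)/E` and the extensions of `E` by cyclic groups are in `C` for the infinite edge stabilizers `E`
at `v`, then the group is in `C`. (3) The extensions of `A` by cyclic groups are in `C` if `A` is virtually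
solvable, and if `A` is in `C` and its outer automorphisms have finite order. (4) Groups which act on trees such that
the vertex stabilizers are groups of matrices and the edge stabilizers consist of all transvections and
dilations with a given direction, are in `C`. -/
theorem result (C : ∀ (G : Type) [Group G], Prop) (hC : ClosedE C)
    (hM : ∀ (G : Type) [Group G], derivedSeries G 2 = ⊥ → C G) (hA : AcylF C) :
    (∀ (G V : Type) [Group G] [MulAction G V] (T : SimpleGraph V), TreeAction G T →
      (∀ v : V, C (MulAction.stabilizer G v)) → Isolated G T →
      (∀ u v : V, T.Adj u v → Infinite (Es G u v) →
        C (Subgroup.Commensurable.commensurator (Es G u v))) → C G) ∧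
    (∀ (G V : Type) [Group G] [MulAction G V] (T : SimpleGraph V), TreeAction G T →
      (∀ v : V, C (MulAction.stabilizer G v)) → EqOrSmall G T →
      (∀ v u : V, T.Adj v u → Infinite (Es G v u) →
        NormQ C (MulAction.stabilizer G v) ((Es G v u).subgroupOf (MulAction.stabilizer G v)) ∧
          CycX C (Es G v u)) → C G) ∧
    (∀ (A : Type) [Group A], VS A → CycX C A) ∧
    (∀ (A : Type) [Group A], C A →
      (∀ f : MulAut A, ∃ n : ℕ, n ≠ 0 ∧ f ^ n ∈ (MulAut.conj (G := A)).range) → CycX C A) ∧
    (∀ (G V : Type) [Group G] [MulAction G V] (T : SimpleGraph V), TreeAction G T →
      LineEdges C G T → C G) := by
  refine ⟨fun G V _ _ T hT hV hI hK => ?_, fun G V _ _ T hT hV hE hN => ?_, fun A _ h => ?_,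
    fun A _ h hout => ?_, fun G V _ _ T hT h => ?_⟩
  · exact Pool.Agent.U74.LN.comm_main hC hA hT.1 hT.2 hV hI hK
  · exact Pool.Agent.U74.LN.eqs_main hC hA hT.1 hT.2 hV hE hN
  · exact Pool.Agent.U74.LN.cycX_vs hC hM h
  · exact Pool.Agent.U74.LN.cycX_out hC h hout
  · exact (Pool.Agent.U74.LN.line_act hC hM hT.1 hT.2 h).main hC hM hA

end Pool.Agent.Results.MP_8f66f0_al.ArbitraryEdgeGroups
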