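import Pool.Agent.U731.SP.WhUp

set_option autoImplicit false

/-!
# Hermitian matrices in the Whitehead group

For a torsion-free group `G` every invertible hermitian matrix over `ℤG` whose spectrum on `ℓ²` lies
in an interval of length at most `3 √2` is zero in the Whitehead group; below the length `4` it is
conjugate to an integral matrix by a diagonal matrix of group elements. For every group and every
length greater than `3 √2` all even hermitian matrices are congruent, after adding hyperbolic planes,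
to hermitian matrices with coefficients `0`, `1`, `-1` of such a span.
-/

namespace Pool.Agent.Results.MP_8f66f0_al.HermitianSpan

open TH57.Thr TH6.LF Matrix

/-- torsion-free -/
def TorsionFree (G : Type) [Group G] : Prop := ∀ g : G, ∀ k : ℕ, 0 < k → g ^ k = 1 → g = 1

/-- the adjoint `P*` (conjugate transpose) for the involution `g ↦ g⁻¹` of the group ring -/
noncomputable def adjoint {G : Type} [Group G] {ι : Type} (P : Matrix ι ι (MonoidAlgebra ℤ G)) :
    Matrix ι ι (MonoidAlgebra ℤ G) :=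
  Matrix.of fun i j => MonoidAlgebra.mapDomain (fun g => g⁻¹) (P j i)

/-- the matrix over the real group ring -/
noncomputable def real {G : Type} [Group G] {ι : Type} (P : Matrix ι ι (MonoidAlgebra ℤ G)) :
    Matrix ι ι (MonoidAlgebra ℝ G) :=
  P.map (MonoidAlgebra.mapRingHom G (Int.castRingHom ℝ))

/-- the inner product of finitely supported row vectors over `ℝG` -/
noncomputable def dot {G : Type} [Group G] {ι : Type} [Fintype ι] (x y : ι → MonoidAlgebra ℝ G) :
    ℝ :=
  ∑ i, (x i).coeff.sum fun g r => (y i).coeff g * r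

/-- The quadratic form `⟨xP, x⟩` has values in an interval `[a, a + s]` on the unit vectors of
`ℓ²(G)^ι` (formulated on the dense subspace of finitely supported vectors); if `P` is hermitian, then
this says that the spectrum of the self-adjoint operator given by `P` is contained in `[a, a + s]`. -/
def SpanLE {G : Type} [Group G] {ι : Type} [Fintype ι] (P : Matrix ι ι (MonoidAlgebra ℤ G))
    (s : ℝ) : Prop :=
  ∃ a : ℝ, ∀ x : ι → MonoidAlgebra ℝ G,
    a * dot x x ≤ dot x (x ᵥ* real P) ∧ dot x (x ᵥ* real P) ≤ (a + s) * dot x x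

/-- All coefficients are `0`, `1` or `-1`. -/
def Small {G : Type} {ι : Type} (A : Matrix ι ι (MonoidAlgebra ℤ G)) : Prop :=
  ∀ i j g, (A i j).coeff g = 0 ∨ (A i j).coeff g = 1 ∨ (A i j).coeff g = -1

/-- `A` is zero in the Whitehead group: for some `m`, some `g ∈ G` and some sign `ε` the matrix
`diag(A, 1_(m+1))` is the product of the diagonal matrix `diag(1, …, 1, ε g, 1, …, 1)` and an
element of the commutator subgroup of the general linear group. -/
def ZeroInWh {G : Type} [Group G] {ι : Type} [Fintype ι] [DecidableEq ι]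
    (A : Matrix ι ι (MonoidAlgebra ℤ G)) : Prop :=
  ∃ (m : ℕ) (g : G) (ε : ℤˣ) (C : (Matrix (ι ⊕ Fin (m + 1)) (ι ⊕ Fin (m + 1))
      (MonoidAlgebra ℤ G))ˣ),
    C ∈ commutator (Matrix (ι ⊕ Fin (m + 1)) (ι ⊕ Fin (m + 1)) (MonoidAlgebra ℤ G))ˣ ∧
    fromBlocks A 0 0 1 =
      Matrix.diagonal (fun i : ι ⊕ Fin (m + 1) =>
        if i = Sum.inr (0 : Fin (m + 1)) then (MonoidAlgebra.single g (ε : ℤ)) else 1) * C.val

section aux

variable {G : Type} [Group G] {ι : Type}

theorem adjoint_eq (P : Matrix ι ι (MonoidAlgebra ℤ G)) : adjoint P = adj P := by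
  ext i j g
  have h1 : g = (fun g : G => g⁻¹) g⁻¹ := by simp
  rw [coeff_adj]
  change (MonoidAlgebra.mapDomain (fun g : G => g⁻¹) (P j i)).coeff g = _
  conv_lhs => rw [h1]
  exact Finsupp.mapDomain_apply inv_injective _ _

theorem herm_of_adjoint {P : Matrix ι ι (MonoidAlgebra ℤ G)} (h : adjoint P = P) :
    U731.SP.HermZ P := by
  intro i j g
  have h1 : (adj P i j).coeff g = (P i j).coeff g := by rw [← adjoint_eq, h]
  rw [← h1, coeff_adj]

theorem dot_self [Fintype ι] (x : ι → MonoidAlgebra ℝ G) : dot x x = TH57.Thr.normSq x := by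
  unfold dot TH57.Thr.normSq
  refine Finset.sum_congr rfl fun i _ => Finset.sum_congr rfl fun g _ => ?_
  rw [sq]

theorem dot_eq [Fintype ι] (x y : ι → MonoidAlgebra ℝ G) : dot x y = ip y x := by
  rw [ip_comm]
  unfold dot ip
  rw [MonoidAlgebra.coeff_sum, Finsupp.finsetSum_apply]
  refine Finset.sum_congr rfl fun i _ => ?_
  rw [MonoidAlgebra.coeff_mul_apply_left]
  refine Finset.sum_congr rfl fun g _ => ?_
  change (y i).coeff g * (x i).coeff g = (x i).coeff g * (bar (y i)).coeff (g⁻¹ * 1)
  rw [coeff_bar]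
  simp [mul_comm]

theorem span_iff [Fintype ι] (P : Matrix ι ι (MonoidAlgebra ℤ G)) (s : ℝ) :
    SpanLE P s ↔ U731.SP.SpanLE (toReal P) s := by
  rw [U731.SP.spanLE_iff]
  unfold SpanLE
  simp only [dot_self, dot_eq]
  rfl

theorem zero_of_TT [Fintype ι] [DecidableEq ι]
    (A : (Matrix ι ι (MonoidAlgebra ℤ G))ˣ) (h : TT (TU G) A) : ZeroInWh A.val := by
  obtain ⟨μ, i1, i2, h1⟩ := h
  have h2 := (TT_more (TU G) A μ h1 (Fin 1)).1
  have hcard : Fintype.card (Fin (Fintype.card μ + 1)) = Fintype.card (μ ⊕ Fin 1) := by simp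
  let e : Fin (Fintype.card μ + 1) ≃ (μ ⊕ Fin 1) := Fintype.equivOfCardEq hcard
  have h3 := re_mem (TU G) (Equiv.sumCongr (Equiv.refl ι) e) _ h2
  obtain ⟨u, ⟨g, ε, hu⟩, C, hC, h4⟩ := HH_form (TU G)
    (Sum.inr (0 : Fin (Fintype.card μ + 1))) _ h3
  refine ⟨Fintype.card μ, g, ε, C, hC, ?_⟩
  have h5 := congrArg Units.val h4
  rw [Units.val_mul] at h5
  convert h5 using 1
  · ext (i | i) (j | j) <;> simp [stm, re, Matrix.one_apply]
  · congr 1
    change _ = dgm (Sum.inr (0 : Fin (Fintype.card μ + 1))) (u : MonoidAlgebra ℤ G)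
    rw [dgm_apply, hu]
    congr 1
    funext i
    by_cases h : i = Sum.inr (0 : Fin (Fintype.card μ + 1))
    · subst h; simp
    · rw [if_neg h, Function.update_of_ne h]; rfl

theorem TT_of_zero [Fintype ι] [DecidableEq ι]
    (A : (Matrix ι ι (MonoidAlgebra ℤ G))ˣ) (h : ZeroInWh A.val) : TT (TU G) A := by
  obtain ⟨m, g, ε, C, hC, h1⟩ := h
  refine ⟨Fin (m + 1), inferInstance, inferInstance, ?_⟩
  have hu : (MonoidAlgebra.single g (ε : ℤ) : MonoidAlgebra ℤ G) *
      MonoidAlgebra.single g⁻¹ ((ε⁻¹ : ℤˣ) : ℤ) = 1 := by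
    rw [MonoidAlgebra.single_mul_single, mul_inv_cancel, MonoidAlgebra.one_def]
    simp
  have hu' : (MonoidAlgebra.single g⁻¹ ((ε⁻¹ : ℤˣ) : ℤ) : MonoidAlgebra ℤ G) *
      MonoidAlgebra.single g (ε : ℤ) = 1 := by
    rw [MonoidAlgebra.single_mul_single, inv_mul_cancel, MonoidAlgebra.one_def]
    simp
  let u : (MonoidAlgebra ℤ G)ˣ := ⟨_, _, hu, hu'⟩
  have h2 : Units.map (stm (Fin (m + 1))) A =
      Units.map (dgm (Sum.inr (0 : Fin (m + 1)))) u * C := by
    apply Units.ext
    rw [Units.val_mul]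
    have h3 : (Units.map (stm (Fin (m + 1))) A).val = fromBlocks A.val 0 0 1 := by
      ext (i | i) (j | j) <;> simp [stm, Matrix.one_apply]
    rw [h3, h1]
    congr 1
    change _ = dgm (Sum.inr (0 : Fin (m + 1))) (u : MonoidAlgebra ℤ G)
    rw [dgm_apply]
    congr 1
    funext i
    by_cases h : i = Sum.inr (0 : Fin (m + 1))
    · subst h; simp [u]
    · rw [if_neg h, Function.update_of_ne h]; rfl
  rw [h2]
  refine mul_mem ?_ ?_
  · exact Subgroup.mem_sup_right (Subgroup.subset_closure ⟨_, u, ⟨g, ε, rfl⟩, rfl⟩)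
  · exact Subgroup.mem_sup_left hC

end aux

/-- Let `P` be an invertible hermitian matrix over `ℤG`.
1. If `G` is torsion-free and `P` has span at most `3 √2`, then `P` is zero in the Whitehead group.
2. If `G` is torsion-free and `P` has span less than `4`, then `P` is obtained from an invertible
   symmetric integral matrix `C` by the diagonal change of basis with group elements `u i`.
3. Let `s > 3 √2` and let `G` be any group. For every matrix `ψ` over `ℤG` there is a matrix `E` in
   the commutator subgroup such that `E * diag(ψ + ψ*, H) * E*`, with `H` the matrix of a sum of `m`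
   hyperbolic planes, is hermitian with coefficients `0`, `1`, `-1` and span at most `s`. If all
   invertible hermitian matrices over `ℤG` with coefficients `0`, `1`, `-1` and span at most `s` are
   zero in the Whitehead group, then so are all invertible matrices of the form `ψ + ψ*`. -/
theorem result :
    (∀ (G : Type) [Group G], TorsionFree G →
      ∀ (n : ℕ) (P : (Matrix (Fin n) (Fin n) (MonoidAlgebra ℤ G))ˣ), adjoint P.val = P.val →
        (∀ s : ℝ, s ^ 2 ≤ 18 → SpanLE P.val s → ZeroInWh P.val) ∧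
        (∀ s : ℝ, s < 4 → SpanLE P.val s →
          ∃ (u : Fin n → G) (C : Matrix (Fin n) (Fin n) ℤ), IsUnit C ∧ C.transpose = C ∧
            ∀ i j, P.val i j = MonoidAlgebra.single ((u i)⁻¹ * u j) (C i j))) ∧
    ∀ s : ℝ, 0 < s → 18 < s ^ 2 → ∀ (G : Type) [Group G],
      (∀ (n : ℕ) (ψ : Matrix (Fin n) (Fin n) (MonoidAlgebra ℤ G)),
        ∃ (m : ℕ) (E : (Matrix (Fin n ⊕ (Fin m ⊕ Fin m)) (Fin n ⊕ (Fin m ⊕ Fin m))
            (MonoidAlgebra ℤ G))ˣ) (Q : Matrix (Fin n ⊕ (Fin m ⊕ Fin m))
            (Fin n ⊕ (Fin m ⊕ Fin m)) (MonoidAlgebra ℤ G)),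
          E ∈ commutator (Matrix (Fin n ⊕ (Fin m ⊕ Fin m)) (Fin n ⊕ (Fin m ⊕ Fin m))
            (MonoidAlgebra ℤ G))ˣ ∧
          E.val * fromBlocks (ψ + adjoint ψ) 0 0 (fromBlocks 0 1 1 0) * adjoint E.val = Q ∧
          adjoint Q = Q ∧ Small Q ∧ SpanLE Q s) ∧
      ((∀ (n : ℕ) (Q : (Matrix (Fin n) (Fin n) (MonoidAlgebra ℤ G))ˣ), adjoint Q.val = Q.val →
          Small Q.val → SpanLE Q.val s → ZeroInWh Q.val) →
        ∀ (n : ℕ) (ψ : Matrix (Fin n) (Fin n) (MonoidAlgebra ℤ G)), IsUnit (ψ + adjoint ψ) →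
          ZeroInWh (ψ + adjoint ψ)) := by
  refine ⟨fun G _ htf n P hP => ⟨fun s hs hsp => ?_, fun s hs hsp => ?_⟩,
    fun s hs0 hs G _ => ⟨fun n ψ => ?_, fun hall n ψ hu => ?_⟩⟩
  · exact zero_of_TT P (U731.SP.TT_span htf P (herm_of_adjoint hP) s hs ((span_iff _ _).1 hsp))
  · obtain ⟨u, C, hC, hPC⟩ := U731.SP.monomial_of_span htf P.val (herm_of_adjoint hP) s hs
      ((span_iff _ _).1 hsp)
    refine ⟨u, C, ?_, by ext i j; exact hC i j, hPC⟩
    let au : MonoidAlgebra ℤ G →+* ℤ := (MonoidAlgebra.lift ℤ ℤ G 1).toRingHom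
    have h1 : C = (Units.map (mpm (κ := Fin n) au) P).val := by
      ext i j
      change C i j = au (P.val i j)
      rw [hPC]
      simp [au]
    rw [h1]
    exact Units.isUnit _
  · obtain ⟨m, E, h1, h2, h3, h4⟩ := U731.SP.even_red ψ s hs0 hs
    refine ⟨m, E, _, h1, rfl, ?_, ?_, ?_⟩
    · rw [adjoint_eq, adjoint_eq, adjoint_eq]
      ext i j g
      rw [coeff_adj]
      exact h2 i j g
    · rw [adjoint_eq, adjoint_eq]
      exact h3
    · rw [adjoint_eq, adjoint_eq, span_iff]
      exact h4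
  · obtain ⟨P, hP⟩ := hu
    rw [← hP]
    apply zero_of_TT
    refine U731.SP.TT_even s hs0 hs ?_ ψ P (by rw [hP, adjoint_eq])
    intro κ _ _ Q h1 h2 h3
    let e : Fin (Fintype.card κ) ≃ κ := (Fintype.equivFin κ).symm
    let Q' : (Matrix (Fin (Fintype.card κ)) (Fin (Fintype.card κ)) (MonoidAlgebra ℤ G))ˣ :=
      Units.map (re e) Q
    have h4 : TT (TU G) Q' := by
      apply TT_of_zero
      refine hall _ Q' ?_ ?_ ?_
      · rw [adjoint_eq]
        ext i j g
        rw [coeff_adj]
        exact h1 (e i) (e j) g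
      · intro i j g
        exact h2 (e i) (e j) g
      · rw [span_iff, U731.SP.spanLE_iff]
        obtain ⟨a, ha⟩ := (U731.SP.spanLE_iff _ _).1 h3
        refine ⟨a, fun x => ?_⟩
        have h5 := ha (x ∘ e.symm)
        have h6 : TH57.Thr.normSq (x ∘ e.symm) = TH57.Thr.normSq x := by
          unfold TH57.Thr.normSq
          exact Equiv.sum_comp e.symm (fun i => ∑ g ∈ (x i).coeff.support, (x i).coeff g ^ 2)
        have h7 : ip ((x ∘ e.symm) ᵥ* toReal Q.val) (x ∘ e.symm)
            = ip (x ᵥ* toReal Q'.val) x := by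
          unfold ip
          congr 2
          rw [← Equiv.sum_comp e]
          refine Finset.sum_congr rfl fun i _ => ?_
          congr 1
          · simp only [Matrix.vecMul, dotProduct]
            rw [← Equiv.sum_comp e]
            refine Finset.sum_congr rfl fun j _ => ?_
            simp only [Function.comp_apply, Equiv.symm_apply_apply]
            rfl
          · simp only [Function.comp_apply, Equiv.symm_apply_apply]
        rw [h6, h7] at h5
        exact h5
    have h5 : TT (TU G) (Units.map (re e.symm) Q') := TT_re (TU G) e.symm Q' h4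
    have h6 : Units.map (re e.symm) Q' = Q := by
      apply Units.ext
      change (Q.val.submatrix e e).submatrix e.symm e.symm = Q.val
      ext1 i j
      simp
    rwa [h6] at h5

end Pool.Agent.Results.MP_8f66f0_al.HermitianSpan
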