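import Pool.Agent.U643.UI.Lin

/-!
# Extensions whose kernel is a group of units modulo an ideal

`C` is any class of groups with the closure properties `ClosedE C` which contains the metabelian groups.
All this is known for the class of the groups that satisfy the Full Farrell–Jones Conjecture; the
Whitehead groups of the torsion-free groups in this class are trivial, and it contains the groups
`GL_n(K)` for all fields `K` which are algebraic over a global field (Rüping).

Let `G` be a group, `φ : G → A^×` a homomorphism to the group of units of a ring, `N` a normal subgroup of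
`G` on which `φ` is injective, such that `φ n - 1` is in an ideal `I` of `A` for all `n` in `N`
(`KernelsIn`). If `G ⧸ N` is in `C`, then `G` is in `C` in each of the following cases. In particular (for
`I = A`, `N = G`) the group of units of `A` is in `C` if this holds for `I = A`.

(1) `I` is reached from `0` by a transfinite chain of ideals such that each of its factors `J' / J` is of
one of the following kinds: it is an ideal with local units (finite subsets are contained in corner
rings `e (A / J) e`) such that the groups `GL_2 (e (A / J) e)` are in `C`; or it has square zero; or its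
finitely generated subrings are finite.

(2) `A` is von Neumann regular and every nonzero factor `I / J` contains an idempotent `e ≠ 0` such that all
the groups `GL_n (e (A / J) e)` are in `C`. For example `A` is semiartinian and `e (A / J) e` a division ring
`D` with all `GL_n(D)` in `C`.

(3) `A` is the ring of endomorphisms of a vector space `V` of any dimension over a division ring `D` such
that all `GL(D^n)` are in `C`, and `I` is the ideal of the endomorphisms of finite rank. So a group of
linear transformations of `V` is in `C` if its image modulo the finitary ones is.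

(4) `A` is the ring of endomorphisms of a free module `R^(X)` over any ring `R` such that all `GL(R^n)` are
in `C`, all `φ g` have row finite matrices (the columns are finite anyway), and `I` is replaced by the set of
the finitary matrices, those with finitely many nonzero entries. The ring `R` is arbitrary: nothing is
assumed on its idempotents or projective modules.

Outline of the proof. Let `E` be a finite subset of `N` and `g ∈ G`. Choose an idempotent `e` in `I` such
that the elements `φ x - 1`, `x ∈ E`, are in `e A e`, and an idempotent `h` in `I` such that `e` and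
`f = φ(g) e φ(g)⁻¹` are in `h A h`. Then `u = φ(g) e` and `v = e φ(g)⁻¹` are in `h A h`, and
`v u = e`, `u v = f`. The matrix with rows `(u, h - f)` and `(h - e, v)` is invertible over `h A h`, with
inverse `(v, h - e; h - f, u)`, and it conjugates `diag (φ x, 1)` to `diag (φ (g x g⁻¹), 1)` for `x ∈ E`. So the
conjugation by `g` on `E` is realized in the group `GL_2 (h A h)` and the criterion
`MP_490288_al.RealizationCriterion` applies. The complements `h - e` and `h - f` need not be isomorphic,
that is why `GL_2` is used. Chains of ideals are treated by Zorn's lemma; in regular rings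
finite subsets of an ideal are contained in corner rings of the ideal, and the corner ring of an idempotent
`∑ a_i e b_i` embeds in a matrix ring over the corner ring of `e`.
-/

set_option autoImplicit false

namespace Pool.Agent.Results.MP_8f66f0_al.UnitGroups

open Pool.Agent.Y110.FJ (ClosedE)

/-- All groups `G` with a homomorphism `φ` to the group of units of `A` and a normal subgroup `N` with
`G ⧸ N` in `C`, such that `φ` is injective on `N` and `φ n - 1` is in `I` for all `n` in `N`, are
in `C`. -/
def KernelsIn (C : ∀ (G : Type) [Group G], Prop) (A : Type) [Ring A] (I : A → Prop) : Prop :=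
  ∀ (G : Type) [Group G] (φ : G →* Aˣ) (N : Subgroup G) [N.Normal], C (G ⧸ N) →
    (∀ n ∈ N, φ n = 1 → n = 1) → (∀ n ∈ N, I ((φ n : A) - 1)) → C G

/-- Every finite subset of `I` is contained in `e B e` for an idempotent `e` in `I` such that the group
`GL₂` over the corner ring `e B e` is in `C`. -/
def LocalUnits (C : ∀ (G : Type) [Group G], Prop) {B : Type} [Ring B] (I : Set B) : Prop :=
  ∀ F : Set B, F.Finite → F ⊆ I → ∃ (e : B) (he : IsIdempotentElem e),
    e ∈ I ∧ (∀ x ∈ F, e * x = x ∧ x * e = x) ∧ C (Matrix (Fin 2) (Fin 2) he.Corner)ˣ

/-- The ideal `J' / J` of `A / J` has local units as above, or has square zero, or its finite subsets are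
contained in finite subrings. -/
def Step (C : ∀ (G : Type) [Group G], Prop) {A : Type} [Ring A] (J J' : TwoSidedIdeal A) : Prop :=
  LocalUnits C (J.ringCon.mk' '' (J' : Set A)) ∨
  (∀ x ∈ J', ∀ y ∈ J', x * y ∈ J) ∨
  (∀ F : Set A, F.Finite → F ⊆ J' → ∃ R : NonUnitalSubring A, F ⊆ R ∧
    (J.ringCon.mk' '' (R : Set A)).Finite)

/-- The endomorphisms of the free module `R^(X)` with finitely many nonzero matrix entries. -/
def Finitary (R X : Type) [Ring R] (x : Module.End R (X →₀ R)) : Prop :=
  ∃ Y : Finset X, (∀ y ∉ Y, x (Finsupp.single y 1) = 0) ∧ ∀ m, (x m).support ⊆ Y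

/-- (1): ideals `I` which are reached by a transfinite chain of steps -/
def Chains (C : ∀ (G : Type) [Group G], Prop) : Prop :=
  ∀ (A : Type) [Ring A] (I : TwoSidedIdeal A),
    (∀ J : TwoSidedIdeal A, J < I → ∃ J' : TwoSidedIdeal A, J < J' ∧ J' ≤ I ∧ Step C J J') →
    KernelsIn C A (· ∈ I)

/-- `I / J` contains a nonzero idempotent `e` such that all groups `GL_n (e (A / J) e)` are in `C`. -/
def GoodIdempotent (C : ∀ (G : Type) [Group G], Prop) {A : Type} [Ring A]
    (J I : TwoSidedIdeal A) : Prop :=
  ∃ x ∈ I, x ∉ J ∧ ∃ he : IsIdempotentElem (J.ringCon.mk' x), ∀ n : ℕ,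
    C (Matrix (Fin n) (Fin n) he.Corner)ˣ

/-- (2): von Neumann regular rings -/
def RegularRings (C : ∀ (G : Type) [Group G], Prop) : Prop :=
  ∀ (A : Type) [Ring A], (∀ a : A, ∃ b, a * b * a = a) → ∀ I : TwoSidedIdeal A,
    (∀ J : TwoSidedIdeal A, J < I → GoodIdempotent C J I) → KernelsIn C A (· ∈ I)

/-- (3): finitary linear transformations of vector spaces over division rings -/
def VectorSpaces (C : ∀ (G : Type) [Group G], Prop) : Prop :=
  ∀ (D V : Type) [DivisionRing D] [AddCommGroup V] [Module D V],
    (∀ n : ℕ, C (Module.End D (Fin n → D))ˣ) →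
    KernelsIn C (Module.End D V) fun x => FiniteDimensional D (LinearMap.range x)

/-- the matrices of all `φ g` are row finite -/
def RowFinite {R X G : Type} [Ring R] [Group G] (φ : G →* (Module.End R (X →₀ R))ˣ) : Prop :=
  ∀ (g : G) (x : X), {y | (φ g : Module.End R (X →₀ R)) (Finsupp.single y 1) x ≠ 0}.Finite

/-- (4): finitary matrices over arbitrary rings -/
def Matrices (C : ∀ (G : Type) [Group G], Prop) : Prop :=
  ∀ (R X : Type) [Ring R], (∀ n : ℕ, C (Module.End R (Fin n → R))ˣ) →
    ∀ (G : Type) [Group G] (φ : G →* (Module.End R (X →₀ R))ˣ), RowFinite φ →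
      ∀ (N : Subgroup G) [N.Normal], C (G ⧸ N) → (∀ n ∈ N, φ n = 1 → n = 1) →
        (∀ n ∈ N, Finitary R X ((φ n : Module.End R (X →₀ R)) - 1)) → C G

theorem result (C : ∀ (G : Type) [Group G], Prop) (hC : ClosedE C)
    (hmet : ∀ (S : Type) [Group S], derivedSeries S 2 = ⊥ → C S) :
    Chains C ∧ RegularRings C ∧ VectorSpaces C ∧ Matrices C := by
  have hmet' : ∀ (S : Type) [Group S], (∀ a ∈ commutator S, ∀ b ∈ commutator S, a * b = b * a) →
      C S := by
    intro S _ h
    refine hmet S ?_
    have h1 : derivedSeries S 1 = commutator S := derivedSeries_one S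
    rw [derivedSeries_succ, h1, Subgroup.commutator_eq_bot_iff_le_centralizer]
    intro a ha
    rw [Subgroup.mem_centralizer_iff]
    intro b hb
    exact h b hb a ha
  refine ⟨?_, ?_, ?_, ?_⟩
  · intro A _ I hI G _ φ N _ hQ hinj hNI
    exact Pool.Agent.U643.UI.chain hC hmet' I hI φ N hQ hinj hNI
  · intro A _ hreg I hI G _ φ N _ hQ hinj hNI
    exact Pool.Agent.U643.UI.regular hC hmet' hreg I hI φ N hQ hinj hNI
  · intro D V _ _ _ hGL G _ φ N _ hQ hinj hNI
    exact Pool.Agent.U643.UI.finitary hC hGL φ N hQ hinj hNI
  · intro R X _ hGL G _ φ hrow N _ hQ hinj hNI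
    exact Pool.Agent.U643.UI.matrices hC hGL φ hrow N hQ hinj hNI

end Pool.Agent.Results.MP_8f66f0_al.UnitGroups
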