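import Pool.Agent.U731.WH.Cn

/-!
# Invertible matrices over `ℤΓ` for groups built by wreath products and amalgams

Let `Built base` be the smallest class of groups which contains the groups in `base` and is closed
under the following constructions: (a) groups in which every element `g ≠ 1` is detected by a
homomorphism to a group of the class (subgroups, arbitrary cartesian products, residual closure);
(b) groups all of whose finitely generated subgroups are in the class; (c) restricted permutational
wreath products (and their subgroups), for actions with isolated stabilisers, for example the regular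
one; (d) amalgamated products `P` of arbitrary families which have a homomorphism to a group of the
class that is injective on the factors and maps the amalgamated subgroup to an isolated subgroup, for
example free products, or products of a group with itself along an isolated subgroup.

The groups in `base` are: (i) the torsion-free groups in which the centralisers of the elements `≠ 1`
are free abelian; (ii) the groups of piecewise linear homeomorphisms of the line with compact support;
(iii) the linear groups over fields, of any dimension and any characteristic, without unipotent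
elements `≠ 1`, in which `l`-th roots are unique for all `l`.

For every `Γ` in the class and every invertible matrix `A` over `ℤΓ` there are a sign `ε` and `γ ∈ Γ`
such that `A` and `ε γ` have the same determinants in all finite-dimensional representations of `Γ`
over all fields and, up to torsion which is divisible by all positive integers, the same Dennis trace.

Idea of the proof. All groups of the class have unique roots, and in every finitely generated subgroup
`H` and for every `c ≠ 1` in `H` there is a homomorphism from the centraliser of `c` in `H` to `ℤ` which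
does not vanish at `c`. This property passes to restricted wreath products, since the centraliser of
a function with finite support fixes the support. For an amalgam `P` over `L` with a homomorphism to a
group `W` of the class let `P` act in the next group, the wreath product of `ℤ^(ι)` and `W` along
`W / L`, by conjugating the factors with different elements of the base: if the reduced words of length
`≤ m` are not mapped to `L` in `W`, then those of length `≤ m + 1` are not mapped to `L` in the next
group. So `P` is residually in the class. The statement on matrices is then a theorem on groups with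
this property, which uses Frobenius congruences for the Dennis trace.
-/

set_option autoImplicit false

namespace Pool.Agent.Results.MP_8f66f0_al.WreathAmalgamClosure

open Pool.Agent.U731.WH Monoid

universe v w

/-- The smallest class of groups which contains the groups in `base` and is closed under the
constructions (a) `residual`, (b) `locally`, (c) `wreath`, (d) `amalgam`. -/
inductive Built (base : ∀ (Γ : Type) [Group Γ], Prop) : ∀ (Γ : Type) [Group Γ], Prop
  | of_base (Γ : Type) [Group Γ] (h : base Γ) : Built base Γ
  /-- every `g ≠ 1` is detected by a homomorphism to a group of the class -/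
  | residual (Γ : Type) [Group Γ] (ι : Type) (Q : ι → Type) [∀ i, Group (Q i)]
      (π : ∀ i, Γ →* Q i) (hπ : ∀ g : Γ, g ≠ 1 → ∃ i, π i g ≠ 1) (hQ : ∀ i, Built base (Q i)) :
      Built base Γ
  /-- the finitely generated subgroups are in the class -/
  | locally (Γ : Type) [Group Γ] (h : ∀ H : Subgroup Γ, H.FG → Built base H) : Built base Γ
  /-- subgroups of restricted permutational wreath products: `B` acts on `X`, the stabilisers are
  isolated, and `γ ↦ (h γ, π γ)` is an injective homomorphism to the wreath product of `G` and `B`
  along `X`, all functions `h γ : X → G` having finite support -/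
  | wreath (Γ G X B : Type) [Group Γ] [Group G] [Group B] [MulAction B X]
      (hiso : ∀ (b : B) (x : X) (l : ℕ), l ≠ 0 → b ^ l • x = x → b • x = x)
      (π : Γ →* B) (h : Γ → X → G)
      (hmul : ∀ (g g' : Γ) (x : X), h (g * g') x = h g x * h g' ((π g)⁻¹ • x))
      (hinj : ∀ g : Γ, π g = 1 → (∀ x, h g x = 1) → g = 1)
      (hfin : ∀ g : Γ, {x | h g x ≠ 1}.Finite)
      (hG : Built base G) (hB : Built base B) : Built base Γ
  /-- amalgamated products of the groups `G i` along the injective homomorphisms `φ i : H → G i`,
  with a homomorphism `ψ` to a group `Q` of the class which is injective on the factors and maps `H`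
  to an isolated subgroup of `Q` -/
  | amalgam (ι : Type) [Nonempty ι] (G : ι → Type) [∀ i, Group (G i)] (H : Type) [Group H]
      (φ : ∀ i, H →* G i) (hφ : ∀ i, Function.Injective (φ i)) (Q : Type) [Group Q]
      (ψ : PushoutI φ →* Q) (hψ : ∀ i, Function.Injective (ψ.comp (PushoutI.of (φ := φ) i)))
      (hiso : ∀ (q : Q) (l : ℕ), l ≠ 0 → (∃ h : H, ψ (PushoutI.base φ h) = q ^ l) →
        ∃ h : H, ψ (PushoutI.base φ h) = q)
      (hQ : Built base Q) : Built base (PushoutI φ)

/-- the only element of finite order is the identity -/
def TorsionFree (Γ : Type) [Group Γ] : Prop := ∀ g : Γ, ∀ m : ℕ, m ≠ 0 → g ^ m = 1 → g = 1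

/-- piecewise linear with finitely many pieces, with compact support -/
def PiecewiseLinear (f : ℝ ≃o ℝ) : Prop :=
  (∃ s : Finset ℝ, ∀ x y : ℝ, x < y → (∀ t ∈ s, t ≤ x ∨ y ≤ t) →
    ∃ a b : ℝ, ∀ z, x ≤ z → z ≤ y → f z = a * z + b) ∧
  ∃ r : ℝ, ∀ x : ℝ, r ≤ |x| → f x = x

/-- (i) torsion-free groups with free abelian (that is, embeddable in a free abelian group)
centralisers of the elements `≠ 1`, (ii) groups of piecewise linear homeomorphisms, (iii) linear groups
with unique roots and without unipotent elements `≠ 1` -/
def Base (Γ : Type) [Group Γ] : Prop :=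
  (TorsionFree Γ ∧ ∀ c : Γ, c ≠ 1 → ∃ (ι : Type) (e : Subgroup.centralizer ({c} : Set Γ) →*
      Multiplicative (ι →₀ ℤ)), Function.Injective e) ∨
  (∃ ρ : Γ →* (ℝ ≃o ℝ), Function.Injective ρ ∧ ∀ x, PiecewiseLinear (ρ x)) ∨
  ((∀ l : ℕ, l ≠ 0 → ∀ x y : Γ, x ^ l = y ^ l → x = y) ∧
    ∃ (K : Type) (_ : Field K) (N : ℕ) (ρ : Γ →* GL (Fin N) K),
      ∀ g : Γ, g ≠ 1 → ¬ IsNilpotent ((ρ g).val - 1))

/-- the property passes to the class -/
theorem pp_of_built {T : Tgt} (hT : T ℤ) {base : ∀ (Γ : Type) [Group Γ], Prop}
    (hbase : ∀ (Γ : Type) [Group Γ], base Γ → PP T Γ) (Γ : Type) [inst : Group Γ]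
    (h : Built base Γ) : PP T Γ := by
  induction h with
  | of_base Γ h => exact hbase Γ h
  | residual Γ ι Q π hπ _ ih =>
    apply PP.residual
    intro g hg
    obtain ⟨i, hi⟩ := hπ g hg
    exact ⟨Q i, inferInstance, π i, ih i, hi⟩
  | locally Γ _ ih => exact PP.local ih
  | wreath Γ G X B hiso π h hmul hinj hfin _ _ ihG ihB =>
    let φ : Γ →* PW G X B :=
      { toFun := fun g => ⟨h g, π g⟩
        map_one' := by
          have h1 : ∀ x, h 1 x = 1 := by
            intro x
            have h2 := hmul 1 1 x
            rw [one_mul, map_one, inv_one, one_smul] at h2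
            exact mul_eq_left.1 h2.symm
          apply PW.ext
          · funext x
            exact h1 x
          · exact map_one π
        map_mul' := fun g g' => by
          apply PW.ext
          · funext x
            exact hmul g g' x
          · exact map_mul π g g' }
    apply PP.wreath ihG ihB hiso φ _ hfin
    rw [injective_iff_map_eq_one]
    intro g hg
    apply hinj g
    · exact congrArg PW.right hg
    · intro x
      exact congrArg (fun a : PW G X B => a.left x) hg
  | amalgam ι G H φ hφ Q ψ hψ hiso _ ih =>
    apply PP.amalgam hT hφ ih ψ hψ
    intro q l hl hq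
    obtain ⟨h, hh⟩ := hq
    obtain ⟨h', hh'⟩ := hiso q l hl ⟨h, hh⟩
    exact ⟨h', hh'⟩

theorem pp_base (Γ : Type) [Group Γ] (h : Base Γ) : PP T1 Γ := by
  rcases h with ⟨htf, hce⟩ | ⟨ρ, hρ, h⟩ | ⟨hroots, K, _, N, ρ, hu⟩
  · exact PP.of_free_centralisers T1_int htf hce
  · exact PP.pl ρ hρ h
  · exact PP.linear ρ hu hroots

/-- The expression `∑ i, ∑ j, ∑ g, ∑ h, (A⁻¹) i j g * A j i h • f g h` is the value of the cocycle `f`
on the Dennis trace of `A`; `f γ⁻¹ γ` is its value on the Dennis trace of the group element `γ`. -/
theorem result (Γ : Type) [Group Γ] (hΓ : Built Base Γ) {n : ℕ}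
    (A : (Matrix (Fin n) (Fin n) (MonoidAlgebra ℤ Γ))ˣ) :
    ∃ ε : ℤ, (ε = 1 ∨ ε = -1) ∧ ∃ γ : Γ,
      (∀ (L : Type w) [Field L] (d : ℕ) (σ : Γ →* GL (Fin d) L),
        (Matrix.of fun x y : Fin n × Fin d =>
          (A.val x.1 y.1).coeff.sum fun g a => (a : L) * (σ g).val x.2 y.2).det =
            (ε : L) ^ d * (σ γ).val.det) ∧
      ∃ k : ℕ, 0 < k ∧ ∀ (M : Type v) [AddCommGroup M] (f : Γ → Γ → M),
        (∀ x y z : Γ, f (x * y) z - f x (y * z) + f (z * x) y = 0) →
        k • ((∑ i, ∑ j, ((A⁻¹).val i j).coeff.sum fun g b =>
            (A.val j i).coeff.sum fun h a => (b * a) • f g h) - f γ⁻¹ γ) = 0 ∧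
        ∀ m : ℕ, 0 < m → ∃ y : M,
          (∑ i, ∑ j, ((A⁻¹).val i j).coeff.sum fun g b =>
            (A.val j i).coeff.sum fun h a => (b * a) • f g h) - f γ⁻¹ γ = m • y :=
  main_cn (pp_of_built T1_int pp_base Γ hΓ).cn A

end Pool.Agent.Results.MP_8f66f0_al.WreathAmalgamClosure
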